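import Pool.Agent.MP_cce4c9_lc.H87.SpecQ

/-!
Unramified points of the curve: one place, and orders from Taylor expansions.
-/

set_option autoImplicit false

open WithZero Polynomial Finset

namespace Pool.Agent.MP_cce4c9_lc.H10

open H87 H87.Cv

section Loc

variable {k F : Type} [Field k] [CommRing F] [Algebra k F] (v : Place k F)

theorem add_le {a b : F} {ε : ℤᵐ⁰} (ha : v.val a ≤ ε) (hb : v.val b ≤ ε) : v.val (a + b) ≤ ε :=
  (v.val.map_add a b).trans (max_le ha hb)

theorem mul_le {a b : F} {ε : ℤᵐ⁰} (ha : v.val a ≤ 1) (hb : v.val b ≤ ε) : v.val (a * b) ≤ ε := by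
  rw [map_mul, ← one_mul ε]
  exact mul_le_mul' ha hb

theorem pow_le {a : F} (ha : v.val a ≤ 1) (n : ℕ) : v.val (a ^ n) ≤ 1 := by
  rw [map_pow]
  exact pow_le_one' ha n

theorem aeval_le {e : F} (he : v.val e ≤ 1) (h : k[X]) : v.val (aeval e h) ≤ 1 := by
  induction h using Polynomial.induction_on' with
  | add p q hp hq => rw [map_add]; exact add_le v hp hq
  | monomial n a => rw [aeval_monomial]; exact mul_le v (v.const_le a) (pow_le v he n)

/-- Congruence of integral elements. -/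
def Cg (ε : ℤᵐ⁰) (y y' : F) : Prop := v.val y ≤ 1 ∧ v.val y' ≤ 1 ∧ v.val (y - y') ≤ ε

variable {v}

theorem Cg.rfl {ε : ℤᵐ⁰} {y : F} (h : v.val y ≤ 1) : Cg v ε y y := ⟨h, h, by simp⟩

theorem Cg.add {ε : ℤᵐ⁰} {y y' w w' : F} (h : Cg v ε y y') (g : Cg v ε w w') :
    Cg v ε (y + w) (y' + w') :=
  ⟨add_le v h.1 g.1, add_le v h.2.1 g.2.1, by
    rw [add_sub_add_comm]
    exact add_le v h.2.2 g.2.2⟩

theorem Cg.mul {ε : ℤᵐ⁰} {y y' w w' : F} (h : Cg v ε y y') (g : Cg v ε w w') :
    Cg v ε (y * w) (y' * w') :=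
  ⟨mul_le v h.1 g.1, mul_le v h.2.1 g.2.1, by
    rw [show y * w - y' * w' = y * (w - w') + w' * (y - y') by ring]
    exact add_le v (mul_le v h.1 g.2.2) (mul_le v g.2.1 h.2.2)⟩

theorem Cg.pow {ε : ℤᵐ⁰} {y y' : F} (h : Cg v ε y y') (n : ℕ) : Cg v ε (y ^ n) (y' ^ n) := by
  induction n with
  | zero => rw [pow_zero, pow_zero]; exact Cg.rfl (by simp)
  | succ n ih => rw [pow_succ, pow_succ]; exact ih.mul h

theorem Cg.sum {ε : ℤᵐ⁰} {ι : Type} (s : Finset ι) {y y' : ι → F}
    (h : ∀ i ∈ s, Cg v ε (y i) (y' i)) : Cg v ε (∑ i ∈ s, y i) (∑ i ∈ s, y' i) := by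
  induction s using Finset.cons_induction with
  | empty => rw [sum_empty, sum_empty]; exact Cg.rfl (by simp)
  | cons a s ha ih =>
    rw [sum_cons, sum_cons]
    exact (h a (mem_cons_self _ _)).add (ih fun i hi => h i (mem_cons_of_mem hi))

theorem Cg.prod {ε : ℤᵐ⁰} {ι : Type} (s : Finset ι) {y y' : ι → F}
    (h : ∀ i ∈ s, Cg v ε (y i) (y' i)) : Cg v ε (∏ i ∈ s, y i) (∏ i ∈ s, y' i) := by
  induction s using Finset.cons_induction with
  | empty => rw [prod_empty, prod_empty]; exact Cg.rfl (by simp)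
  | cons a s ha ih =>
    rw [prod_cons, prod_cons]
    exact (h a (mem_cons_self _ _)).mul (ih fun i hi => h i (mem_cons_of_mem hi))

theorem Cg.aeval {ε : ℤᵐ⁰} {y y' : F} (h : Cg v ε y y') (p : k[X]) :
    Cg v ε (aeval y p) (aeval y' p) := by
  induction p using Polynomial.induction_on' with
  | add p q hp hq => rw [map_add, map_add]; exact hp.add hq
  | monomial n a =>
    rw [aeval_monomial, aeval_monomial]
    exact (Cg.rfl (v.const_le a)).mul (h.pow n)

theorem val_one {τ : F} (hτ : v.val τ < 1) {h : k[X]} (h0 : ¬ X ∣ h) : v.val (aeval τ h) = 1 := by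
  have h1 : Cg v (v.val τ) τ 0 := ⟨hτ.le, by simp, by simp⟩
  have h2 := (h1.aeval h).2.2
  have h3 : v.val (aeval (0 : F) h) = 1 := by
    rw [← coeff_zero_eq_aeval_zero']
    exact v.triv _ fun e => h0 (X_dvd_iff.2 e)
  rw [← h3]
  exact v.val.map_eq_of_sub_lt (by rw [h3]; exact h2.trans_lt hτ)

theorem val_pow {τ : F} (hτ : v.val τ < 1) {g : k[X]} (h0 : g ≠ 0) :
    ∃ r : ℕ, v.val (aeval τ g) = v.val τ ^ r := by
  obtain ⟨h, e, hh⟩ := exists_eq_pow_rootMultiplicity_mul_and_not_dvd g h0 0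
  rw [C_0, sub_zero] at e hh
  refine ⟨rootMultiplicity 0 g, ?_⟩
  conv_lhs => rw [e]
  rw [map_mul, map_pow, aeval_X, map_mul, map_pow, val_one hτ hh, mul_one]

theorem val_le_iff {τ : F} (hτ : v.val τ < 1) (h0 : v.val τ ≠ 0) (n : ℕ) (g : k[X]) :
    v.val (aeval τ g) ≤ v.val τ ^ n ↔ X ^ n ∣ g := by
  constructor
  · induction n with
    | zero => simp
    | succ n ih =>
      intro h
      obtain ⟨q, rfl⟩ := ih (h.trans (pow_le_pow_right_of_le_one' hτ.le n.le_succ))
      rw [pow_succ]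
      refine mul_dvd_mul_left _ ?_
      by_contra hq
      rw [map_mul, map_pow, aeval_X, map_mul, map_pow, val_one hτ hq, pow_succ] at h
      exact absurd (le_of_mul_le_mul_left h (pow_pos (zero_lt_iff.2 h0) n)) hτ.not_ge
  · rintro ⟨q, rfl⟩
    rw [map_mul, map_pow, aeval_X, map_mul, map_pow]
    exact mul_le_of_le_one_right' (aeval_le v hτ.le q)

theorem rem_sq (f : k[X]) (a : k) : ∃ h : k[X],
    f.comp (C a + X) - C (f.eval a) - C ((derivative f).eval a) * X = X ^ 2 * h := by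
  refine X_pow_dvd_iff.2 fun d hd => ?_
  rw [add_comm, ← taylor_apply]
  interval_cases d
  · simp [taylor_coeff_zero]
  · simp [taylor_coeff_one]

theorem eta_cg {τ x : F} (f : k[X]) (a z : k) (hz : z * (derivative f).eval a = 1)
    (hτ : v.val τ < 1) (hx : v.val (x - algebraMap k F a) < 1)
    (he : aeval x f = algebraMap k F (f.eval a) + τ) (n : ℕ) :
    Cg v (v.val τ ^ (n + 1)) x (aeval τ (C a + eta f a z n)) := by
  obtain ⟨h, hh⟩ := rem_sq f a
  have hR : ∀ e : F, aeval (algebraMap k F a + e) f - algebraMap k F (f.eval a) -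
      algebraMap k F ((derivative f).eval a) * e = e ^ 2 * aeval e h := fun e => by
    simpa only [map_sub, map_mul, map_pow, map_add, aeval_comp, aeval_C, aeval_X] using
      congrArg (aeval e) hh
  set ξ := x - algebraMap k F a with hξ
  have hz' : algebraMap k F z * algebraMap k F ((derivative f).eval a) = 1 := by
    rw [← map_mul, hz, map_one]
  have e1 : ξ = algebraMap k F z * (τ - ξ ^ 2 * aeval ξ h) := by
    have := hR ξ
    rw [hξ, add_sub_cancel, he, ← hξ] at this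
    linear_combination (-algebraMap k F z) * this - ξ * hz'
  have h1 : v.val ξ ≤ v.val τ := by
    by_contra hlt
    have hlt' : v.val τ < v.val ξ := not_le.1 hlt
    have h2 : v.val (ξ ^ 2 * aeval ξ h) < v.val ξ := by
      rw [map_mul, map_pow, pow_two]
      refine (mul_le_of_le_one_right' (aeval_le v hx.le h)).trans_lt ?_
      exact mul_lt_of_lt_one_right (zero_le.trans_lt hlt') hx
    have h3 : v.val ξ < v.val ξ := by
      conv_lhs => rw [e1]
      rw [map_mul]
      exact (mul_le_of_le_one_left' (v.const_le z)).trans_lt (v.val.map_sub_lt hlt' h2)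
    exact lt_irrefl _ h3
  have key : ∀ n : ℕ, v.val (ξ - aeval τ (eta f a z n)) ≤ v.val τ ^ (n + 1) := by
    intro n
    induction n with
    | zero => simpa [H87.eta] using h1
    | succ n ih =>
      set η := aeval τ (eta f a z n) with hη
      have e2 : aeval τ (eta f a z (n + 1)) = algebraMap k F z * (τ - η ^ 2 * aeval η h) := by
        rw [← hR η, H87.eta]
        simp only [map_sub, map_mul, map_add, aeval_comp, aeval_C, aeval_X, ← hη]
      have h4 : v.val η ≤ v.val τ := by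
        rw [show η = ξ - (ξ - η) by ring]
        exact v.val.map_sub_le h1 (ih.trans (pow_le_of_le_one zero_le hτ.le n.succ_ne_zero))
      have h5 : Cg v (v.val τ ^ (n + 1)) ξ η := ⟨hx.le, h4.trans hτ.le, ih⟩
      have h6 := (h5.mul (h5.aeval h))
      have e3 : ξ - aeval τ (eta f a z (n + 1)) = -algebraMap k F z *
          (ξ * aeval ξ h * (ξ - η) + η * (ξ * aeval ξ h - η * aeval η h)) := by
        rw [e2]
        linear_combination e1
      rw [e3]
      refine mul_le v (by rw [Valuation.map_neg]; exact v.const_le z) (add_le v ?_ ?_)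
      · rw [map_mul, map_mul, pow_succ' _ (n + 1)]
        exact mul_le_mul' ((mul_le_of_le_one_right' (aeval_le v hx.le h)).trans h1) ih
      · rw [map_mul, pow_succ' _ (n + 1)]
        exact mul_le_mul' h4 h6.2.2
  refine ⟨v.le_of_sub_lt hx, aeval_le v hτ.le _, ?_⟩
  rw [map_add, aeval_C, ← sub_sub]
  exact key n

end Loc

theorem eq_of_le_exp {x y : ℤᵐ⁰} (hx : x ≤ 1) (hy : y ≤ 1)
    (h : ∀ n : ℕ, x ≤ exp (-(n : ℤ)) ↔ y ≤ exp (-(n : ℤ))) : x = y := by
  have key : ∀ x y : ℤᵐ⁰, y ≤ 1 → (∀ n : ℕ, y ≤ exp (-(n : ℤ)) → x ≤ exp (-(n : ℤ))) → x ≤ y := by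
    intro x y hy h
    by_cases h0 : y = 0
    · by_contra hx
      have hx0 : x ≠ 0 := fun e => hx (e ▸ zero_le)
      have := h ((log x).natAbs + 1) (h0 ▸ zero_le)
      rw [← exp_log hx0, exp_le_exp, log_exp] at this
      omega
    · have h1 : log y ≤ 0 := by rwa [← exp_log h0, ← exp_zero, exp_le_exp] at hy
      have e : exp (-((-log y).toNat : ℤ)) = y := by
        rw [Int.toNat_of_nonneg (by omega), neg_neg, exp_log h0]
      have := h (-log y).toNat e.ge
      rwa [e] at this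
  exact le_antisymm (key x y hy fun n => (h n).2) (key y x hx fun n => (h n).1)

variable {k : Type} [Field k] {d m : ℕ} {f : k[X]} {C : Cv k d m f}

/-- The local parameter. -/
noncomputable def tau (C : Cv k d m f) (c : k) : C.Q := C.t - algebraMap k C.Q c

/-- The Taylor polynomial of a table of coefficients. -/
noncomputable def tay (f : k[X]) (d m L N : ℕ) (a z : ℕ → k) (c : ℕ → ℕ → k) : k[X] :=
  ∑ J ∈ range (d ^ m), ∑ e ∈ range (N + 1 - ds d m J),
    Polynomial.C (c e J) * tcol f d m L a z (N - e - ds d m J) J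

theorem aeval_t (p : k[X]) :
    aeval C.t p = algebraMap (RatFunc k) C.Q (algebraMap k[X] (RatFunc k) p) := by
  rw [Cv.t, aeval_algebraMap_apply, RatFunc.aeval_X_left_eq_algebraMap]

theorem val_aeval_t (v : Place k C.Q) {p : k[X]} (hp : p ≠ 0) : v.val (aeval C.t p) ≠ 0 := by
  rw [aeval_t]
  exact v.val_unit_ne
    ((Ne.isUnit (RatFunc.algebraMap_ne_zero hp)).map (algebraMap (RatFunc k) C.Q)).unit

theorem tau_ne (v : Place k C.Q) (c : k) : v.val (tau C c) ≠ 0 := by
  simpa [tau] using val_aeval_t v (X_sub_C_ne_zero c)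

theorem psi_cg (H : C.HA) {a z : ℕ → k}
    (hz : ∀ i < m, f.eval (a i) = f.eval (a 0) ∧ z i * (derivative f).eval (a i) = 1)
    {v : Place k C.Q} (hv : C.At v a) (L N : ℕ) (c : ℕ → ℕ → k) :
    Cg v (v.val (tau C (f.eval (a 0))) ^ (L + 1)) (C.psi N c)
      (aeval (tau C (f.eval (a 0))) (tay f d m L N a z c)) := by
  obtain ⟨h1, h2, -⟩ := H.atT v a hv
  rw [H.psi_eq, tay, map_sum]
  refine Cg.sum _ fun J _ => ?_
  rw [map_sum]
  refine Cg.sum _ fun e _ => ?_
  rw [map_mul, aeval_C, tcol, map_mul, map_pow, map_prod, map_add, aeval_C, aeval_X, tau,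
    add_sub_cancel]
  refine (Cg.rfl (v.const_le _)).mul ((Cg.rfl (pow_le v h1 _)).mul (Cg.prod _ fun i hi => ?_))
  rw [map_pow]
  have hi' := mem_range.1 hi
  refine (eta_cg f (a i) (z i) (hz i hi').2 h2 (hv i hi') ?_ L).pow _
  rw [C.eqn i hi', (hz i hi').1, add_sub_cancel]
  rfl

theorem psi_iff (H : C.HA) {a z : ℕ → k}
    (hz : ∀ i < m, f.eval (a i) = f.eval (a 0) ∧ z i * (derivative f).eval (a i) = 1)
    {v : Place k C.Q} (hv : C.At v a) (L N n : ℕ) (c : ℕ → ℕ → k) (hn : n ≤ L) :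
    v.val (C.psi N c) ≤ v.val (tau C (f.eval (a 0))) ^ n ↔ X ^ n ∣ tay f d m L N a z c := by
  have h2 : v.val (tau C (f.eval (a 0))) < 1 := (H.atT v a hv).2.1
  have h3 := (psi_cg H hz hv L N c).2.2.trans
    (pow_le_pow_right_of_le_one' h2.le (hn.trans L.le_succ))
  rw [← val_le_iff h2 (tau_ne v _)]
  constructor
  · intro h
    simpa using v.val.map_sub_le h h3
  · intro h
    simpa using add_le v h3 h

theorem exists_psi (H : C.HA) {y : C.Q} (hy : y ∈ C.AA) : ∃ N c, y = C.psi N c := by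
  obtain ⟨N, hN⟩ := (H.memA y).1 hy
  obtain ⟨c, hc⟩ := (H.memF N _).1 hN
  refine ⟨N, c, (C.su.isUnit.pow N).mul_right_cancel ?_⟩
  exact hc.trans (H.psi_hat N c).symm

theorem aeval_mem (H : C.HA) (p : k[X]) : aeval C.t p ∈ C.AA := by
  induction p using Polynomial.induction_on' with
  | add p q hp hq => rw [map_add]; exact add_mem hp hq
  | monomial n a =>
    rw [aeval_monomial]
    exact mul_mem (C.AA.algebraMap_mem a) (pow_mem H.tA n)

theorem exists_den (H : C.HA) (y : C.Q) : ∃ b : k[X], b ≠ 0 ∧ aeval C.t b * y ∈ C.AA := by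
  obtain ⟨a, rfl⟩ := C.spn y
  obtain ⟨b, hb⟩ := IsLocalization.exist_integer_multiples (nonZeroDivisors k[X]) (range (d ^ m)) a
  refine ⟨b, nonZeroDivisors.coe_ne_zero b, ?_⟩
  rw [mul_sum]
  refine sum_mem fun J hJ => ?_
  obtain ⟨p, hp⟩ := hb J hJ
  rw [← mul_assoc, aeval_t, ← map_mul, ← Algebra.smul_def (b : k[X]), ← hp, ← aeval_t]
  refine mul_mem (aeval_mem H p) (prod_mem fun i hi => pow_mem ?_ _)
  exact Algebra.subset_adjoin ⟨i, mem_range.1 hi, rfl⟩

theorem tau_val (H : C.HA) {a z : ℕ → k}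
    (hz : ∀ i < m, f.eval (a i) = f.eval (a 0) ∧ z i * (derivative f).eval (a i) = 1)
    {v : Place k C.Q} (hv : C.At v a) : v.val (tau C (f.eval (a 0))) = exp (-1 : ℤ) := by
  set γ := v.val (tau C (f.eval (a 0))) with hγ
  have h2 : γ < 1 := (H.atT v a hv).2.1
  have h0 : γ ≠ 0 := tau_ne v _
  have hl : log γ < 0 := by rwa [← exp_log h0, ← exp_zero, exp_lt_exp] at h2
  have key : ∀ y ∈ C.AA, v.val y ≠ 0 → ∃ r : ℕ, v.val y = γ ^ r := by
    intro y hy hy0
    obtain ⟨N, c, rfl⟩ := exists_psi H hy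
    set L := (log (v.val (C.psi N c))).natAbs with hL
    have h3 : γ ^ (L + 1) < v.val (C.psi N c) := by
      rw [← exp_log h0, ← exp_nsmul, ← exp_log hy0, exp_lt_exp, nsmul_eq_mul]
      have : -(L : ℤ) ≤ log (v.val (C.psi N c)) := by omega
      push_cast
      nlinarith
    have h4 := (psi_cg H hz hv L N c).2.2.trans_lt h3
    have h5 := v.val.map_eq_of_sub_lt (x := C.psi N c) (by rw [Valuation.map_sub_swap]; exact h4)
    have h6 : tay f d m L N a z c ≠ 0 := fun e => by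
      rw [e, map_zero, map_zero] at h5
      exact hy0 h5.symm
    rw [← h5]
    exact val_pow h2 h6
  obtain ⟨π, hπ⟩ := v.exists_unif
  obtain ⟨b, hb, hπb⟩ := exists_den H π
  obtain ⟨r, hr⟩ := key _ (aeval_mem H b) (val_aeval_t v hb)
  obtain ⟨r', hr'⟩ := key _ hπb (by
    rw [map_mul, hπ]
    exact mul_ne_zero (val_aeval_t v hb) exp_ne_zero)
  rw [map_mul, hπ, hr, ← exp_log h0, ← exp_nsmul, ← exp_nsmul, ← exp_add, exp_inj, nsmul_eq_mul,
    nsmul_eq_mul] at hr'
  have h7 : log γ ∣ 1 := ⟨r - r', by linarith⟩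
  rw [← exp_log h0, exp_inj]
  rcases Int.isUnit_iff.1 (isUnit_of_dvd_one h7) with e | e <;> omega

theorem lo : StmtLO := by
  intro k _ _ d m f C _ H PL a z hz
  obtain ⟨v, hv⟩ := PL a fun i hi => (hz i hi).1
  have key : ∀ w, C.At w a → ∀ (L N n : ℕ) (c : ℕ → ℕ → k), n ≤ L →
      (w.val (C.psi N c) ≤ exp (-(n : ℤ)) ↔ X ^ n ∣ tay f d m L N a z c) := by
    intro w hw L N n c hn
    rw [← psi_iff H hz hw L N n c hn, tau_val H hz hw, ← exp_nsmul]
    simp
  refine ⟨v, hv, fun w hw => ?_, fun L N n c hn => ?_⟩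
  · have hA : ∀ y ∈ C.AA, w.val y = v.val y := fun y hy => by
      refine eq_of_le_exp (H.finA w (H.atT w a hw).1 y hy) (H.finA v (H.atT v a hv).1 y hy)
        fun n => ?_
      obtain ⟨N, c, rfl⟩ := exists_psi H hy
      rw [key w hw n N n c le_rfl, key v hv n N n c le_rfl]
    ext y
    obtain ⟨b, hb, hy⟩ := exists_den H y
    have h1 := hA _ hy
    rw [map_mul, map_mul, hA _ (aeval_mem H b)] at h1
    exact mul_left_cancel₀ (val_aeval_t v hb) h1
  · rw [key v hv L N n c hn, X_pow_dvd_iff]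
    simp only [tay, finsetSum_coeff, coeff_C_mul]

end Pool.Agent.MP_cce4c9_lc.H10
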