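import Pool.Agent.MP_cce4c9_lc.H87.SpecR

/-! The tests and the second system run in polynomial time. -/

set_option autoImplicit false

open List Pool.Agent.Shared.H56 Pool.Agent.MP_cce4c9_lc.H87

namespace Pool.Agent.MP_cce4c9_lc.H10

variable {α : Type} [N487b59b3 α]

theorem dig_min (n J i : ℕ) : dig n J i = dig n J (min i (J.size + 1)) := by
  rcases le_total i (J.size + 1) with h | h
  · rw [min_eq_left h]
  · rw [min_eq_right h]
    have key : ∀ j, J.size + 1 ≤ j → dig n J j = 0 := by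
      intro j hj
      unfold dig
      rcases n with _ | _ | n
      · rw [zero_pow (by omega)]; simp
      · exact Nat.mod_one _
      · have h1 : J < 2 ^ J.size := Nat.lt_size_self J
        have h2 : 2 ^ J.size ≤ 2 ^ j := Nat.pow_le_pow_right (by omega) (by omega)
        have h3 : 2 ^ j ≤ (n + 1 + 1) ^ j := Nat.pow_le_pow_left (by omega) _
        rw [Nat.div_eq_of_lt (by omega)]
        simp
    rw [key i h, key _ le_rfl]

section
variable {D B : α → Ds} {a s : α → El} {fl Ys b : α → List El} {M cT : α → List (List El)}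
  {n N J e i l p : α → ℕ} {cl : α → List Tab} {al : α → List ℕ}

theorem pt_dig3 (hn : PT n) (hJ : PT J) (hi : PT i) : PT fun x => dig (n x) (J x) (i x) := by
  have h1 : PT fun x => un ((J x).bits.length + 1) := by fun_prop
  have h2 : PT fun x => un (min (i x) ((J x).bits.length + 1)) := hi.un_min h1
  refine (pt_dig hn hJ h2).congr fun x => ?_
  rw [Nat.size_eq_bits_len, ← dig_min]

theorem pt_ds (d m : ℕ) (hJ : PT J) : PT fun x => ds d m (J x) := by
  unfold ds
  refine PT.sum (PT.map (f := fun x i => dig d (J x) i) ?_ (PT.const _))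
  exact pt_dig3 (PT.const _) (hJ.comp PT.id'.fst) PT.id'.snd

attribute [local fun_prop] pt_ds

@[local fun_prop] theorem pt_tk (hB : PT B) (ha : PT a) : PT fun x => tk (B x) (a x) := by
  unfold tk; fun_prop

@[local fun_prop] theorem pt_fullL (hB : PT B) (hf : PT fl) : PT fun x => fullL (B x) (fl x) := by
  unfold fullL; fun_prop

@[local fun_prop] theorem pt_derL (hB : PT B) (hf : PT fl) : PT fun x => derL (B x) (fl x) := by
  unfold derL; fun_prop

@[local fun_prop] theorem pt_tr1 (hB : PT B) (hn : PT fun x => un (n x)) :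
    PT fun x => tr1 (B x) (n x) :=
  (pt_tower hB (hn.replicate (PT.const [])) 1).fst

@[local fun_prop] theorem pt_rt1 (hB : PT B) (hn : PT fun x => un (n x)) :
    PT fun x => rt1 (B x) (n x) :=
  (pt_tower hB (hn.replicate (PT.const [])) 1).snd.getD (PT.const 0) (PT.const [])

@[local fun_prop] theorem pt_fstar (d : ℕ) (hB : PT B) (hs : PT s) (hf : PT fl) :
    PT fun x => fstar (B x) (s x) (fl x) d := by
  unfold fstar; fun_prop

@[local fun_prop] theorem pt_hatT (d m : ℕ) (hB : PT B) (hf : PT fl)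
    (hn : PT fun x => un (n x)) : PT fun x => hatT (B x) (fl x) d m (n x) :=
  pt_tower (pt_tr1 hB hn) (pt_fstar d (pt_tr1 hB hn) (pt_rt1 hB hn) hf) m

theorem pt_mono (d m : ℕ) (hB : PT B) (hY : PT Ys) (hJ : PT J) :
    PT fun x => prodL (B x) ((range m).map fun i => pw (B x) ((Ys x).getD i []) (dig d (J x) i)) := by
  refine pt_prodL hB (PT.map (f := fun x i => pw (B x) ((Ys x).getD i []) (dig d (J x) i)) ?_
    (PT.const _))
  exact pt_pw (hB.comp PT.id'.fst) (by fun_prop)
    (pt_dig3 (PT.const _) (hJ.comp PT.id'.fst) PT.id'.snd)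

@[local fun_prop] theorem pt_mkHat (d m : ℕ) (hB : PT B) (hs : PT s) (hY : PT Ys)
    (hN : PT fun x => un (N x)) (hc : PT cT) :
    PT fun x => mkHat (B x) (s x) (Ys x) d m (N x) (cT x) := by
  unfold mkHat
  refine pt_sumL hB (PT.map (f := fun x J => sumL (B x) ((range (N x + 1 - ds d m J)).map fun e =>
    mul (B x) (ent (cT x) e J) (mul (B x) (pw (B x) (s x) e)
      (prodL (B x) ((range m).map fun i => pw (B x) ((Ys x).getD i []) (dig d J i)))))) ?_
      (PT.const _))
  refine pt_sumL (hB.comp PT.id'.fst) (PT.map (f := fun (q : α × ℕ) e =>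
    mul (B q.1) (ent (cT q.1) e q.2) (mul (B q.1) (pw (B q.1) (s q.1) e)
      (prodL (B q.1) ((range m).map fun i => pw (B q.1) ((Ys q.1).getD i []) (dig d q.2 i))))) ?_
      (PT.range (PT.un_sub (PT.un_add (hN.comp PT.id'.fst) (PT.const _)) (pt_ds d m PT.id'.snd))))
  have h1 : PT fun r : (α × ℕ) × ℕ => B r.1.1 := hB.comp PT.id'.fst.fst
  exact pt_mul h1 (by fun_prop) (pt_mul h1 (by fun_prop)
    (pt_mono d m h1 (hY.comp PT.id'.fst.fst) PT.id'.fst.snd))

@[local fun_prop] theorem pt_coefH (hB : PT B) (hn : PT fun x => un (n x)) (ha : PT a)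
    (he : PT e) (hJ : PT J) : PT fun x => coefH (B x) (n x) (a x) (e x) (J x) :=
  pt_chunk hB (pt_chunk (pt_tr1 hB hn) ha hJ) he

@[local fun_prop] theorem pt_delH (d m : ℕ) (hB : PT B) (hs : PT s) (hY : PT Ys) (hf : PT fl) :
    PT fun x => delH (B x) (s x) (Ys x) (fl x) d m := by
  unfold delH; fun_prop

theorem pt_prodH (d m : ℕ) (hB : PT B) (hf : PT fl) (hn : PT fun x => un (n x))
    (hN : PT fun x => un (N x)) (hc : PT cl) (ha : PT al) :
    PT fun x => prodH (B x) (fl x) d m (n x) (N x) (cl x) (al x) := by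
  unfold prodH
  have hH := pt_hatT d m hB hf hn
  refine pt_prodL hH.fst (PT.map (f := fun x i => pw (hatT (B x) (fl x) d m (n x)).1
    (mkHat (hatT (B x) (fl x) d m (n x)).1 (rt1 (B x) (n x)) (hatT (B x) (fl x) d m (n x)).2 d m
      (N x) (((cl x).getD i []).map (map (tk (B x))))) ((al x).getD i 0)) ?_ hc.un_length.range)
  have h1 : PT fun q : α × ℕ => hatT (B q.1) (fl q.1) d m (n q.1) := hH.comp PT.id'.fst
  refine pt_pw h1.fst (pt_mkHat d m h1.fst ((pt_rt1 hB hn).comp PT.id'.fst) h1.snd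
    (hN.comp PT.id'.fst) ?_) (by fun_prop)
  refine PT.map (f := fun (q : α × ℕ) r => map (tk (B q.1)) r) ?_ (by fun_prop)
  exact PT.map (f := fun (q : (α × ℕ) × List El) r => tk (B q.1.1) r) (by fun_prop) PT.id'.snd

theorem pt_Ex (hl : PT fun x => un (l x)) (hp : PT p) (hn : PT fun x => un (n x)) :
    PT fun x => Ex (l x) (p x) (n x) := by
  unfold Ex
  have h1 : PT fun x => un (l x - 1) := hl.un_sub (PT.const 1)
  exact ((PT.const 1).add (h1.of_un.mul (hp.pow (h1.un_mul hn)))).div hl.of_un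

theorem pt_tst1 (d m : ℕ) (hf : PT fl) (hl : PT fun x => un (l x)) (hB : PT B) (hc : PT cl)
    (ha : PT al) : PT fun x => tst1 (fl x) d m (l x) (B x) (cl x) (al x) := by
  unfold tst1
  have hN : PT fun x => un (l x * N0 d m) := hl.un_mul (PT.const _)
  have hn : PT fun x => un (l x * N0 d m * (l x * (cl x).length) + 1) :=
    (hN.un_mul (hl.un_mul hc.un_length)).un_add (PT.const _)
  have hP := pt_pw (pt_hatT d m hB hf hn).fst (pt_prodH d m hB hf hn hN hc ha)
    (pt_Ex hl hB.fst ((PT.const (un d)).un_mul (m := fun _ => d) hn))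
  refine pt_prodL hB (PT.flatMap (f := fun x J =>
    ((range (l x * N0 d m * (l x * (cl x).length) + 1)).filter fun e =>
      decide (N0 d m * (al x).sum < e + ds d m J)).map fun e =>
      eqz (B x) (coefH (B x) (l x * N0 d m * (l x * (cl x).length) + 1)
        (pw (hatT (B x) (fl x) d m (l x * N0 d m * (l x * (cl x).length) + 1)).1
          (prodH (B x) (fl x) d m (l x * N0 d m * (l x * (cl x).length) + 1) (l x * N0 d m)
            (cl x) (al x))
          (Ex (l x) (B x).1 (d * (l x * N0 d m * (l x * (cl x).length) + 1)))) e J)) ?_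
    (PT.const _))
  refine PT.map (f := fun (q : α × ℕ) e =>
      eqz (B q.1) (coefH (B q.1) (l q.1 * N0 d m * (l q.1 * (cl q.1).length) + 1)
        (pw (hatT (B q.1) (fl q.1) d m (l q.1 * N0 d m * (l q.1 * (cl q.1).length) + 1)).1
          (prodH (B q.1) (fl q.1) d m (l q.1 * N0 d m * (l q.1 * (cl q.1).length) + 1)
            (l q.1 * N0 d m) (cl q.1) (al q.1))
          (Ex (l q.1) (B q.1).1 (d * (l q.1 * N0 d m * (l q.1 * (cl q.1).length) + 1)))) e q.2))
    ?_ (PT.filter (f := fun (q : α × ℕ) e => decide (N0 d m * (al q.1).sum < e + ds d m q.2))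
      (by fun_prop) (hn.range.comp PT.id'.fst))
  have h1 : PT fun r : (α × ℕ) × ℕ => B r.1.1 := hB.comp PT.id'.fst.fst
  exact pt_eqz h1 (pt_coefH h1 (hn.comp PT.id'.fst.fst) (hP.comp PT.id'.fst.fst) PT.id'.snd
    PT.id'.fst.snd)

theorem pt_tst0 (d m : ℕ) (hf : PT fl) (hl : PT fun x => un (l x)) (hB : PT B) (hc : PT cl)
    (ha : PT al) : PT fun x => tst0 (fl x) d m (l x) (B x) (cl x) (al x) := by
  unfold tst0
  have hN : PT fun _ : α => un (2 * w0 d m) := PT.const _
  have hn : PT fun x => un (2 * w0 d m * (l x * (cl x).length) + 1) :=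
    (hN.un_mul (m := fun _ => 2 * w0 d m) (hl.un_mul hc.un_length)).un_add (PT.const _)
  have hH := pt_hatT d m hB hf hn
  have hP := pt_sub hH.fst (pt_prodH (N := fun _ => 2 * w0 d m) d m hB hf hn hN hc ha)
    (pt_pw hH.fst (pt_delH d m hH.fst (pt_rt1 hB hn) hH.snd hf) ha.sum)
  refine pt_prodL hB (PT.flatMap (f := fun x J =>
    (range (2 * w0 d m * (l x * (cl x).length) + 1)).map fun e =>
      eqz (B x) (coefH (B x) (2 * w0 d m * (l x * (cl x).length) + 1)
        (sub (hatT (B x) (fl x) d m (2 * w0 d m * (l x * (cl x).length) + 1)).1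
          (prodH (B x) (fl x) d m (2 * w0 d m * (l x * (cl x).length) + 1) (2 * w0 d m)
            (cl x) (al x))
          (pw (hatT (B x) (fl x) d m (2 * w0 d m * (l x * (cl x).length) + 1)).1
            (delH (hatT (B x) (fl x) d m (2 * w0 d m * (l x * (cl x).length) + 1)).1
              (rt1 (B x) (2 * w0 d m * (l x * (cl x).length) + 1))
              (hatT (B x) (fl x) d m (2 * w0 d m * (l x * (cl x).length) + 1)).2 (fl x) d m)
            (al x).sum)) e J)) ?_ (PT.const _))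
  refine PT.map (f := fun (q : α × ℕ) e =>
      eqz (B q.1) (coefH (B q.1) (2 * w0 d m * (l q.1 * (cl q.1).length) + 1)
        (sub (hatT (B q.1) (fl q.1) d m (2 * w0 d m * (l q.1 * (cl q.1).length) + 1)).1
          (prodH (B q.1) (fl q.1) d m (2 * w0 d m * (l q.1 * (cl q.1).length) + 1) (2 * w0 d m)
            (cl q.1) (al q.1))
          (pw (hatT (B q.1) (fl q.1) d m (2 * w0 d m * (l q.1 * (cl q.1).length) + 1)).1
            (delH (hatT (B q.1) (fl q.1) d m (2 * w0 d m * (l q.1 * (cl q.1).length) + 1)).1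
              (rt1 (B q.1) (2 * w0 d m * (l q.1 * (cl q.1).length) + 1))
              (hatT (B q.1) (fl q.1) d m (2 * w0 d m * (l q.1 * (cl q.1).length) + 1)).2
              (fl q.1) d m) (al q.1).sum)) e q.2)) ?_ (hn.range.comp PT.id'.fst)
  have h1 : PT fun r : (α × ℕ) × ℕ => B r.1.1 := hB.comp PT.id'.fst.fst
  exact pt_eqz h1 (pt_coefH h1 (hn.comp PT.id'.fst.fst) (hP.comp PT.id'.fst.fst) PT.id'.snd
    PT.id'.fst.snd)

theorem pt_tab0 (d m : ℕ) (hb : PT b) : PT fun x => tab0 d m (b x) :=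
  pt_mat (n := fun _ => w0 d m + 1) (m := fun _ => d ^ m)
    (φ := fun x e J => (b x).getD (J + d ^ m * e) []) (PT.const _) (PT.const _) (by fun_prop)

theorem pt_eq0 {H : α → Ds × List El} (d m : ℕ) (hH : PT H) (hs : PT s) (hf : PT fl)
    (hl : PT fun x => un (l x)) : PT fun x => eq0 (H x) (s x) (fl x) d m (l x) := by
  unfold eq0
  have hT := pt_tower hH.fst
    ((hl.un_add (n := fun _ => 1) (PT.const _)).replicate (PT.const ([] : El))) (nV0 d m)
  exact pt_sub hT.fst
    (pt_pw hT.fst (pt_mkHat (N := fun _ => 2 * w0 d m) d m hT.fst hs hH.snd (PT.const _)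
      (pt_tab0 d m hT.snd)) hl.of_un)
    (pt_pw hT.fst (pt_delH d m hT.fst hs hH.snd hf) hl.of_un)

theorem pt_sys0 (d m : ℕ) (hD : PT D) (hf : PT fl) (hl : PT fun x => un (l x)) :
    PT fun x => sys0 (D x) (fl x) d m (l x) := by
  unfold sys0
  have hn : PT fun x => un (2 * w0 d m * l x + 1) :=
    ((PT.const (un (2 * w0 d m))).un_mul (m := fun _ => 2 * w0 d m) hl).un_add (PT.const _)
  have hH := pt_hatT d m hD hf hn
  have hE := pt_eq0 d m hH (pt_rt1 hD hn) hf hl
  have hV : PT fun x => un ((l x + 1) ^ nV0 d m) :=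
    pt_un_pow (hl.un_add (n := fun _ => 1) (PT.const _)) _
  refine PT.flatMap (f := fun x J => (range (2 * w0 d m * l x + 1)).map fun e =>
    (range ((l x + 1) ^ nV0 d m)).map fun J' =>
      coefH (D x) (2 * w0 d m * l x + 1) (chunk (hatT (D x) (fl x) d m (2 * w0 d m * l x + 1)).1
        (eq0 (hatT (D x) (fl x) d m (2 * w0 d m * l x + 1)) (rt1 (D x) (2 * w0 d m * l x + 1))
          (fl x) d m (l x)) J') e J) ?_ (PT.const _)
  refine PT.map (f := fun (q : α × ℕ) e => (range ((l q.1 + 1) ^ nV0 d m)).map fun J' =>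
      coefH (D q.1) (2 * w0 d m * l q.1 + 1)
        (chunk (hatT (D q.1) (fl q.1) d m (2 * w0 d m * l q.1 + 1)).1
        (eq0 (hatT (D q.1) (fl q.1) d m (2 * w0 d m * l q.1 + 1))
          (rt1 (D q.1) (2 * w0 d m * l q.1 + 1)) (fl q.1) d m (l q.1)) J') e q.2) ?_
    (hn.range.comp PT.id'.fst)
  refine PT.map (f := fun (r : (α × ℕ) × ℕ) J' =>
      coefH (D r.1.1) (2 * w0 d m * l r.1.1 + 1)
        (chunk (hatT (D r.1.1) (fl r.1.1) d m (2 * w0 d m * l r.1.1 + 1)).1
        (eq0 (hatT (D r.1.1) (fl r.1.1) d m (2 * w0 d m * l r.1.1 + 1))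
          (rt1 (D r.1.1) (2 * w0 d m * l r.1.1 + 1)) (fl r.1.1) d m (l r.1.1)) J') r.2 r.1.2) ?_
    (hV.range.comp PT.id'.fst.fst)
  have h0 : PT fun t : ((α × ℕ) × ℕ) × ℕ => t.1.1.1 := PT.id'.fst.fst.fst
  exact pt_coefH (hD.comp h0) (hn.comp h0) (pt_chunk (hH.fst.comp h0) (hE.comp h0) PT.id'.snd)
    PT.id'.fst.snd PT.id'.fst.fst.snd

end

theorem pt3 : StmtPT3 := by
  intro d m
  refine ⟨?_, ?_, ?_, ?_⟩
  · exact pt_tst1 d m PT.id'.snd.fst PT.id'.fst.un_length PT.id'.snd.snd.fst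
      PT.id'.snd.snd.snd.fst PT.id'.snd.snd.snd.snd
  · exact pt_tst0 d m PT.id'.snd.fst PT.id'.fst.un_length PT.id'.snd.snd.fst
      PT.id'.snd.snd.snd.fst PT.id'.snd.snd.snd.snd
  · have hT : PT fun x : List Bool × List El × Ds × Pat × List El => tab0 d m x.2.2.2.2 :=
      pt_tab0 d m PT.id'.snd.snd.snd.snd
    exact (pt_tst0 d m PT.id'.snd.fst PT.id'.fst.un_length PT.id'.snd.snd.fst
      (hT.cons (PT.const [])) (PT.id'.fst.length.cons (PT.const []))).prodMk hT
  · exact pt_sys0 d m PT.id'.snd.fst PT.id'.snd.snd PT.id'.fst.un_length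

end Pool.Agent.MP_cce4c9_lc.H10
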